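import Pool.Agent.H74.OLP.Targets2

/-!
# Locally planar cubic graphs: CSD
-/

set_option autoImplicit false
set_option linter.unusedSectionVars false
open scoped Classical
open Finset Pool.Agent.H74.OLP

namespace Pool.Agent.H81.OLP

theorem pf_CSD : T_CSD := by
  intro V E F _ _ _ M hM hs n c hc
  have hn4 := hc.n4
  have hn0 : (0 : ℤ) < (n : ℤ) := by omega
  have hadj : ∀ i : ℤ, ∃ e, s(M.l e, M.r e) = s(c i, c (i + 1)) := by
    intro i
    have h1 : M.T.Adj (c i) (c (i + 1)) := (hc.adj i (i + 1)).2 (Or.inr ⟨0, by ring⟩)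
    exact h1.2
  choose ed hed using hadj
  have hndvd : ∀ m : ℤ, (n : ℤ) ∣ m → m ≠ 0 → (n : ℤ) ≤ |m| := by
    intro m hm h0
    exact Int.le_of_dvd (abs_pos.2 h0) ((dvd_abs _ _).2 hm)
  -- (a)
  have ha : ∀ i j : ℤ, ed i = ed j ↔ (n : ℤ) ∣ i - j := by
    intro i j
    constructor
    · intro h
      have h2 : s(c i, c (i + 1)) = s(c j, c (j + 1)) := by rw [← hed i, ← hed j, h]
      rw [Sym2.eq_iff] at h2
      rcases h2 with ⟨h3, -⟩ | ⟨h3, h4⟩
      · exact (hc.eqv i j).1 h3
      · exfalso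
        have h5 := (hc.eqv _ _).1 h3
        have h6 := (hc.eqv _ _).1 h4
        have h7 : (n : ℤ) ∣ (i + 1 - j) - (i - (j + 1)) := dvd_sub h6 h5
        have h8 : (i + 1 - j) - (i - (j + 1)) = 2 := by ring
        rw [h8] at h7
        have := hndvd 2 h7 (by norm_num)
        norm_num at this
        omega
    · intro h
      apply hs
      rw [hed i, hed j, (hc.eqv i j).2 h,
        (hc.eqv (i + 1) (j + 1)).2 (by
          rw [show i + 1 - (j + 1) = i - j by ring]; exact h)]
  -- (b)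
  have hb : ∀ e, M.l e ∈ Set.range c → M.r e ∈ Set.range c → ∃ i, e = ed i := by
    rintro e ⟨a, haa⟩ ⟨b, hbb⟩
    have h1 := T_adj_of_edge M hM e
    rw [← haa, ← hbb] at h1
    rcases (hc.adj a b).1 h1 with h2 | h2
    · refine ⟨b, hs _ _ ?_⟩
      rw [hed b, ← haa, ← hbb]
      have : c a = c (b + 1) := (hc.eqv _ _).2 (by
        rw [show a - (b + 1) = a - b - 1 by ring]; exact h2)
      rw [this]
      exact Sym2.eq_swap
    · refine ⟨a, hs _ _ ?_⟩
      rw [hed a, ← haa, ← hbb]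
      have : c b = c (a + 1) := (hc.eqv _ _).2 (by
        rw [show b - (a + 1) = b - a - 1 by ring]; exact h2)
      rw [this]
  -- faces of `ed j`
  have hf : ∀ j : ℤ, (M.l (ed j) = c j ∧ M.r (ed j) = c (j + 1)) ∨
      (M.l (ed j) = c (j + 1) ∧ M.r (ed j) = c j) := by
    intro j
    have := hed j
    rw [Sym2.eq_iff] at this
    exact this
  have hb' : ∀ j : ℤ, M.l (ed j) ∈ Set.range c ∧ M.r (ed j) ∈ Set.range c := by
    intro j
    rcases hf j with ⟨h1, h2⟩ | ⟨h1, h2⟩
    · rw [h1, h2]; exact ⟨⟨_, rfl⟩, ⟨_, rfl⟩⟩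
    · rw [h1, h2]; exact ⟨⟨_, rfl⟩, ⟨_, rfl⟩⟩
  -- (c)
  have hcc : ∀ i j : ℤ, M.OnF (ed j) (c i) ↔ ((n : ℤ) ∣ i - j ∨ (n : ℤ) ∣ i - 1 - j) := by
    intro i j
    have e1 : c j = c i ↔ (n : ℤ) ∣ i - j := by
      rw [hc.eqv, dvd_sub_comm]
    have e2 : c (j + 1) = c i ↔ (n : ℤ) ∣ i - 1 - j := by
      rw [hc.eqv, dvd_sub_comm, show i - (j + 1) = i - 1 - j by ring]
    unfold CMap.OnF
    rcases hf j with ⟨h1, h2⟩ | ⟨h1, h2⟩
    · rw [h1, h2, e1, e2]
    · rw [h1, h2, e1, e2, or_comm]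
  -- residues
  have hres : ∀ i : ℤ, ∃ k : ℕ, k < n ∧ ed i = ed (k : ℤ) := by
    intro i
    refine ⟨(i % (n : ℤ)).toNat, ?_, ?_⟩
    · have h1 := Int.emod_lt_of_pos i hn0
      have h2 := Int.emod_nonneg i hn0.ne'
      omega
    · rw [ha, Int.toNat_of_nonneg (Int.emod_nonneg i hn0.ne')]
      exact Int.dvd_self_sub_emod
  have hinj : ∀ k < n, ∀ l < n, ed (k : ℤ) = ed (l : ℤ) → k = l := by
    intro k hk l hl h
    rw [ha] at h
    by_contra hkl
    have := hndvd _ h (by omega)
    rw [le_abs] at this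
    omega
  -- (3)
  have h3 : ∀ f ∈ Set.range c, ∃ e e', e ≠ e' ∧ ∀ e'', (M.OnF e'' f ∧ M.l e'' ∈ Set.range c ∧
    M.r e'' ∈ Set.range c) ↔ (e'' = e ∨ e'' = e') := by
    rintro f ⟨i, rfl⟩
    refine ⟨ed i, ed (i - 1), ?_, ?_⟩
    · intro h
      rw [ha] at h
      rw [show i - (i - 1) = 1 by ring] at h
      have := hndvd 1 h (by norm_num)
      norm_num at this
      omega
    · intro e''
      constructor
      · rintro ⟨g1, g2, g3⟩
        obtain ⟨j, rfl⟩ := hb e'' g2 g3
        rw [hcc] at g1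
        rcases g1 with g1 | g1
        · left; exact ((ha i j).2 g1).symm
        · right; exact ((ha (i - 1) j).2 g1).symm
      · rintro (rfl | rfl)
        · exact ⟨(hcc i i).2 (Or.inl (by simp)), hb' _⟩
        · exact ⟨(hcc i (i - 1)).2 (Or.inr (by simp)), hb' _⟩
  refine ⟨?_, ?_, h3, ?_⟩
  · intro D
    have e1 : cs (M.lift D) n c = ∑ i ∈ Finset.range n, D (ed (i : ℤ)) := by
      unfold cs
      refine Finset.sum_congr rfl fun i _ => ?_
      exact lift_eq M hs D (hed i)
    rw [e1]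
    unfold CMap.dot CMap.ch
    have e2 : ∀ e, D e * (if M.l e ∈ Set.range c ∧ M.r e ∈ Set.range c then (1 : R) else 0) =
        if M.l e ∈ Set.range c ∧ M.r e ∈ Set.range c then D e else 0 := by
      intro e
      split_ifs <;> simp
    rw [Finset.sum_congr rfl fun e _ => e2 e, ← Finset.sum_filter]
    refine Finset.sum_bij (fun i _ => ed (i : ℤ)) ?_ ?_ ?_ ?_
    · intro i _
      rw [Finset.mem_filter]
      exact ⟨Finset.mem_univ _, hb' _⟩
    · intro k hk l hl h
      exact hinj k (Finset.mem_range.1 hk) l (Finset.mem_range.1 hl) h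
    · intro e he
      rw [Finset.mem_filter] at he
      obtain ⟨i, rfl⟩ := hb e he.2.1 he.2.2
      obtain ⟨k, hk, hk'⟩ := hres i
      exact ⟨k, Finset.mem_range.2 hk, hk'.symm⟩
    · intro i _
      rfl
  · intro f
    have e1 : ∀ e, ((if M.l e = f then M.ch (Set.range c) e else 0) +
        (if M.r e = f then M.ch (Set.range c) e else 0)) =
        if (M.OnF e f ∧ M.l e ∈ Set.range c ∧ M.r e ∈ Set.range c) then (1 : R) else 0 := by
      intro e
      have hlr := hM.lr e
      unfold CMap.ch CMap.OnF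
      by_cases h1 : M.l e = f
      · have h2 : M.r e ≠ f := fun h => hlr (h1.trans h.symm)
        by_cases h4 : M.l e ∈ Set.range c ∧ M.r e ∈ Set.range c
        · rw [if_pos h1, if_pos h4, if_neg h2, if_pos ⟨Or.inl h1, h4⟩, add_zero]
        · rw [if_pos h1, if_neg h4, if_neg h2, if_neg (fun h => h4 h.2), add_zero]
      · by_cases h2 : M.r e = f
        · by_cases h4 : M.l e ∈ Set.range c ∧ M.r e ∈ Set.range c
          · rw [if_neg h1, if_pos h4, if_pos h2, if_pos ⟨Or.inr h2, h4⟩, zero_add]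
          · rw [if_neg h1, if_neg h4, if_pos h2, if_neg (fun h => h4 h.2), zero_add]
        · rw [if_neg h1, if_neg h2, if_neg (fun h => h.1.elim h1 h2), zero_add]
    rw [Finset.sum_congr rfl fun e _ => e1 e]
    by_cases hfr : f ∈ Set.range c
    · obtain ⟨e, e', hne, he⟩ := h3 f hfr
      have e2 : ∀ e'', (if (M.OnF e'' f ∧ M.l e'' ∈ Set.range c ∧ M.r e'' ∈ Set.range c)
          then (1 : R) else 0) = (if e'' = e then 1 else 0) + (if e'' = e' then 1 else 0) := by
        intro e''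
        by_cases g1 : e'' = e
        · have g2 : e'' ≠ e' := fun h => hne (g1.symm.trans h)
          rw [if_pos ((he e'').2 (Or.inl g1)), if_pos g1, if_neg g2, add_zero]
        · by_cases g2 : e'' = e'
          · rw [if_pos ((he e'').2 (Or.inr g2)), if_neg g1, if_pos g2, zero_add]
          · rw [if_neg (fun h => ((he e'').1 h).elim g1 g2), if_neg g1, if_neg g2, zero_add]
      rw [Finset.sum_congr rfl fun e _ => e2 e, Finset.sum_add_distrib]
      simp only [Finset.sum_ite_eq', Finset.mem_univ, if_true]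
      exact R2 1
    · apply Finset.sum_eq_zero
      intro e _
      rw [if_neg]
      rintro ⟨g1 | g1, g2, g3⟩
      · exact hfr (g1 ▸ g2)
      · exact hfr (g1 ▸ g3)
  · have h5 : (Finset.range n).card ≤ (Finset.univ : Finset E).card :=
      Finset.card_le_card_of_injOn (fun i => ed (i : ℤ)) (fun i _ => Finset.mem_univ _)
        (fun k hk l hl h => hinj k (by simpa using hk) l (by simpa using hl) h)
    rwa [Finset.card_range, Finset.card_univ] at h5

end Pool.Agent.H81.OLP
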