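import Pool.Agent.H74.OLP.Targets2

/-!
# Locally planar cubic graphs: DIM
-/

set_option autoImplicit false
set_option linter.unusedSectionVars false
open scoped Classical
open Finset Pool.Agent.H74.OLP

namespace Pool.Agent.H81.OLP

section

variable {V E F : Type} [Fintype V] [Fintype E] [Fintype F]

/-- incidence matrix -/
noncomputable def inc (M : CMap V E F) : Matrix V E R :=
  fun v e => (if M.s e = v then 1 else 0) + (if M.t e = v then 1 else 0)

theorem zg_inc (M : CMap V E F) (D : E → R) : M.ZG D ↔ (inc M).mulVec D = 0 := by
  unfold CMap.ZG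
  rw [funext_iff]
  refine forall_congr' fun v => ?_
  rw [show (∑ e, ((if M.s e = v then D e else 0) + (if M.t e = v then D e else 0))) =
    (inc M).mulVec D v from by
      unfold Matrix.mulVec inc
      simp only [dotProduct]
      exact Finset.sum_congr rfl fun e _ => by split_ifs <;> ring]
  rfl

theorem inc_tr (M : CMap V E F) (W : V → R) :
    (inc M).transpose.mulVec W = fun e => W (M.s e) + W (M.t e) := by
  funext e
  unfold Matrix.mulVec
  simp only [dotProduct, Matrix.transpose_apply, inc, add_mul, ite_mul, one_mul, zero_mul,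
    Finset.sum_add_distrib, Finset.sum_ite_eq, Finset.mem_univ, if_true]

theorem dot_comm_add {n : ℕ} (a : Fin n → R) (ω : ℕ → E → R) (D x : E → R) :
    CMap.dot (fun e => ∑ i : Fin n, a i * ω i e + D e) x =
      ∑ i : Fin n, a i * CMap.dot (ω i) x + CMap.dot D x := by
  rw [dot_add (E := E)]
  congr 1
  unfold CMap.dot
  simp only [Finset.sum_mul, Finset.mul_sum]
  rw [Finset.sum_comm]
  refine Finset.sum_congr rfl fun j _ => Finset.sum_congr rfl fun e _ => by ring

/-- the map of combinations -/
noncomputable def psi (M : CMap V E F) (n : ℕ) (ω : ℕ → E → R) :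
    ((Fin n → R) × (F → R)) →ₗ[R] (E → R) where
  toFun p := fun e => ∑ i : Fin n, p.1 i * ω i e + (p.2 (M.l e) + p.2 (M.r e))
  map_add' p q := by
    funext e
    simp only [Prod.fst_add, Prod.snd_add, Pi.add_apply, add_mul, Finset.sum_add_distrib]
    ring
  map_smul' c p := by
    funext e
    simp only [Prod.smul_fst, Prod.smul_snd, Pi.smul_apply, smul_eq_mul, RingHom.id_apply,
      mul_add, Finset.mul_sum, mul_assoc]

end

theorem pf_DIM (h1 : T_ECT) (h2 : T_PAI) : T_DIM := by
  intro V E F _ _ _ M hM hV hF hW hG k hk n ω C hωC htri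
  have hE := h1 V E F M hM
  obtain ⟨hp1, -, hp3⟩ := h2 V E F M
  -- the kernel of the transpose
  have k1 : Module.finrank R (LinearMap.ker (inc M).transpose.mulVecLin) ≤ 1 := by
    have hle : LinearMap.ker (inc M).transpose.mulVecLin ≤
        Submodule.span R {(fun _ => 1 : V → R)} := by
      intro W hW'
      rw [LinearMap.mem_ker, Matrix.mulVecLin_apply, inc_tr] at hW'
      have hc : ∀ e, W (M.s e) = W (M.t e) := fun e => Req.2 (congrFun hW' e)
      obtain ⟨v⟩ := hV
      rw [Submodule.mem_span_singleton]
      refine ⟨W v, ?_⟩
      funext u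
      simp only [Pi.smul_apply, smul_eq_mul, mul_one]
      exact hW W hc v u
    refine (Submodule.finrank_mono hle).trans ?_
    exact (finrank_span_le_card _).trans (by simp)
  have k2 := LinearMap.finrank_range_add_finrank_ker (inc M).transpose.mulVecLin
  rw [Module.finrank_fintype_fun_eq_card] at k2
  have k3 : (inc M).transpose.rank = (inc M).rank := Matrix.rank_transpose _
  have k4 : Module.finrank R (LinearMap.range (inc M).transpose.mulVecLin) =
      (inc M).transpose.rank := rfl
  have k5 := LinearMap.finrank_range_add_finrank_ker (inc M).mulVecLin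
  rw [Module.finrank_fintype_fun_eq_card] at k5
  have k6 : Module.finrank R (LinearMap.range (inc M).mulVecLin) = (inc M).rank := rfl
  -- the range of psi
  have r1 : LinearMap.range (psi M n ω) ≤ LinearMap.ker (inc M).mulVecLin := by
    rintro _ ⟨p, rfl⟩
    rw [LinearMap.mem_ker, Matrix.mulVecLin_apply]
    have e1 : psi M n ω p = ∑ i : Fin n, p.1 i • (ω i) +
        (fun e => p.2 (M.l e) + p.2 (M.r e)) := by
      funext e
      simp only [psi, LinearMap.coe_mk, AddHom.coe_mk, Pi.add_apply, Finset.sum_apply,
        Pi.smul_apply, smul_eq_mul]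
    rw [e1, Matrix.mulVec_add, (zg_inc M _).1 (hp3 p.2 hM), add_zero]
    rw [← Matrix.mulVecLin_apply, map_sum]
    refine Finset.sum_eq_zero fun i _ => ?_
    rw [map_smul, Matrix.mulVecLin_apply, (zg_inc M _).1 (hωC i i.2).1, smul_zero]
  have r2 : Module.finrank R (LinearMap.ker (psi M n ω)) ≤ 1 := by
    have hle : LinearMap.ker (psi M n ω) ≤
        Submodule.span R {((0 : Fin n → R), (fun _ => 1 : F → R))} := by
      rintro ⟨a, g⟩ hp
      rw [LinearMap.mem_ker] at hp
      have hp' : (fun e => ∑ i : Fin n, a i * ω i e + (g (M.l e) + g (M.r e))) = 0 := hp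
      have ha : ∀ m : ℕ, ∀ hm : m < n, a ⟨m, hm⟩ = 0 := by
        intro m
        induction m using Nat.strong_induction_on with
        | _ m ih =>
          intro hm
          have e1 : CMap.dot (fun e => ∑ i : Fin n, a i * ω i e + (g (M.l e) + g (M.r e)))
              (C m) = 0 := by
            rw [hp']
            unfold CMap.dot
            simp
          rw [dot_comm_add a ω (fun e => g (M.l e) + g (M.r e)), hp1 _ _ (hωC m hm).2.1,
            add_zero] at e1
          rw [Finset.sum_eq_single (⟨m, hm⟩ : Fin n)] at e1
          · rw [(hωC m hm).2.2, mul_one] at e1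
            exact e1
          · intro i _ hi
            have hi' : (i : ℕ) ≠ m := fun h => hi (Fin.ext h)
            rcases lt_or_gt_of_ne hi' with h | h
            · rw [show a i = 0 from ih i h i.2, zero_mul]
            · rw [htri i i.2 m h, mul_zero]
          · intro h
            exact absurd (Finset.mem_univ _) h
      have ha' : a = 0 := funext fun i => ha i i.2
      subst ha'
      have hg : ∀ e, g (M.l e) = g (M.r e) := by
        intro e
        have := congrFun hp' e
        simp only [Pi.zero_apply, zero_mul, Finset.sum_const_zero, zero_add] at this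
        exact Req.2 this
      obtain ⟨f⟩ := hF
      rw [Submodule.mem_span_singleton]
      refine ⟨g f, ?_⟩
      refine Prod.ext ?_ ?_
      · simp
      · funext f'
        simp only [Prod.smul_mk, Pi.smul_apply, smul_eq_mul, mul_one]
        exact hG g hg f f'
    refine (Submodule.finrank_mono hle).trans ?_
    exact (finrank_span_le_card _).trans (by simp)
  have r3 := LinearMap.finrank_range_add_finrank_ker (psi M n ω)
  rw [Module.finrank_prod, Module.finrank_fintype_fun_eq_card,
    Module.finrank_fintype_fun_eq_card, Fintype.card_fin] at r3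
  have r4 := Submodule.finrank_mono r1
  omega

end Pool.Agent.H81.OLP
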