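import Pool.Agent.H74.OLP.Targets2

/-!
# Locally planar cubic graphs: FON
-/

set_option autoImplicit false
set_option linter.unusedSectionVars false
open scoped Classical
open Finset Pool.Agent.H74.OLP

namespace Pool.Agent.H81.OLP

section

variable {V E F : Type} [Fintype V] [Fintype E] [Fintype F]

theorem faces_eq {M : CMap V E F} (hM : M.OK) {e : E} {y z : F}
    (h : ∀ f, M.OnF e f ↔ (f = y ∨ f = z)) :
    (M.l e = y ∧ M.r e = z) ∨ (M.l e = z ∧ M.r e = y) := by
  have h1 := (h (M.l e)).1 (Or.inl rfl)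
  have h2 := (h (M.r e)).1 (Or.inr rfl)
  have h3 := hM.lr e
  rcases h1 with h1 | h1 <;> rcases h2 with h2 | h2
  · exact absurd (h1.trans h2.symm) h3
  · exact Or.inl ⟨h1, h2⟩
  · exact Or.inr ⟨h1, h2⟩
  · exact absurd (h1.trans h2.symm) h3

theorem dot_congr' {D D' x : E → R} (h : ∀ e, x e ≠ 0 → D e = D' e) :
    CMap.dot D x = CMap.dot D' x := by
  unfold CMap.dot
  refine Finset.sum_congr rfl fun e _ => ?_
  by_cases hx : x e = 0
  · rw [hx, mul_zero, mul_zero]
  · rw [h e hx]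

theorem dot_sum' {n : ℕ} (D : E → R) (a : ℕ → R) (Φ : ℕ → E → R) (x : E → R) :
    CMap.dot (fun e => D e + ∑ j ∈ Finset.range n, a j * Φ j e) x =
      CMap.dot D x + ∑ j ∈ Finset.range n, a j * CMap.dot (Φ j) x := by
  rw [dot_add (E := E)]
  congr 1
  unfold CMap.dot
  simp only [Finset.sum_mul, Finset.mul_sum]
  rw [Finset.sum_comm]
  refine Finset.sum_congr rfl fun j _ => Finset.sum_congr rfl fun e _ => by ring

theorem zg_iff {M : CMap V E F} (D : E → R) : M.ZG D ↔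
    ∀ v, CMap.dot D (fun e => (if M.s e = v then 1 else 0) + (if M.t e = v then 1 else 0)) = 0 := by
  unfold CMap.ZG CMap.dot
  refine forall_congr' fun v => ?_
  rw [show (∑ e, ((if M.s e = v then D e else 0) + (if M.t e = v then D e else 0))) =
    ∑ e, D e * ((if M.s e = v then 1 else 0) + (if M.t e = v then 1 else 0)) from
    Finset.sum_congr rfl fun e _ => by split_ifs <;> ring]

end

theorem pf_FON (h1 : T_PHI) (h2 : T_DUA) (h3 : T_CZZ) (h4 : T_SYM) (h5 : T_PAI) (h6 : T_ZGV) :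
    T_FON := by
  intro V E F _ _ _ M hM n C Φ θ hθ hdel A B hAB hBA hsub hC hgood ω hω hωC y hy hyB hωy h hh
  have hp1 := (h5 V E F M).1
  set Ds : E → R := fun e =>
    if M.l e ∈ A ∨ M.r e ∈ A then ω e + (h (M.l e) + h (M.r e)) else 0 with hDs
  have s1 : ∀ e, M.l e ∈ B → M.r e ∈ B → Ds e = ω e + (h (M.l e) + h (M.r e)) := by
    intro e hl hr
    by_cases hc : M.l e ∈ A ∨ M.r e ∈ A
    · simp only [hDs, if_pos hc]
    · simp only [hDs, if_neg hc]
      push Not at hc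
      rw [hh e ⟨hl, hc.1⟩ ⟨hr, hc.2⟩, R2]
  -- (2)
  have s2 : M.ZG Ds := by
    intro v
    obtain ⟨a, b, c, x, y', z, hab, hbc, hac, hxy, hyz, hxz, hv, fa, fb, fc⟩ := hM.tri v
    rw [h6 V E F M hM Ds v a b c hab hbc hac hv]
    have hωv := hω v
    rw [h6 V E F M hM ω v a b c hab hbc hac hv] at hωv
    have key : ∀ (e : E) (p q : F), (∀ f, M.OnF e f ↔ (f = p ∨ f = q)) →
        (p ∉ A → q ∉ A → Ds e = 0) ∧ (p ∈ B → q ∈ B → Ds e = ω e + (h p + h q)) ∧
        (p ∈ A → q ∈ B) ∧ (q ∈ A → p ∈ B) := by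
      intro e p q hpq
      rcases faces_eq hM hpq with ⟨g1, g2⟩ | ⟨g1, g2⟩
      · refine ⟨fun k1 k2 => ?_, fun k1 k2 => ?_, fun k => ?_, fun k => ?_⟩
        · simp only [hDs]
          rw [if_neg]
          rw [g1, g2]
          exact fun k => k.elim k1 k2
        · rw [s1 e (g1 ▸ k1) (g2 ▸ k2), g1, g2]
        · exact g2 ▸ hAB e (g1 ▸ k)
        · exact g1 ▸ hBA e (g2 ▸ k)
      · refine ⟨fun k1 k2 => ?_, fun k1 k2 => ?_, fun k => ?_, fun k => ?_⟩
        · simp only [hDs]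
          rw [if_neg]
          rw [g1, g2]
          exact fun k => k.elim k2 k1
        · rw [s1 e (g1 ▸ k2) (g2 ▸ k1), g1, g2, add_comm (h q)]
        · exact g1 ▸ hBA e (g2 ▸ k)
        · exact g2 ▸ hAB e (g1 ▸ k)
    obtain ⟨a1, a2, a3, a4⟩ := key a y' z fa
    obtain ⟨b1, b2, b3, b4⟩ := key b z x fb
    obtain ⟨c1, c2, c3, c4⟩ := key c x y' fc
    have hall : x ∈ B → y' ∈ B → z ∈ B → Ds a + Ds b + Ds c = 0 := by
      intro k1 k2 k3
      rw [a2 k2 k3, b2 k3 k1, c2 k1 k2]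
      linear_combination hωv + R2 (h x) + R2 (h y') + R2 (h z)
    by_cases hx : x ∈ A
    · exact hall (hsub hx) (c3 hx) (b4 hx)
    · by_cases hy' : y' ∈ A
      · exact hall (c4 hy') (hsub hy') (a3 hy')
      · by_cases hz : z ∈ A
        · exact hall (b3 hz) (a4 hz) (hsub hz)
        · rw [a1 hy' hz, b1 hz hx, c1 hx hy']
          ring
  -- (3)
  have zc : ∀ j < n, M.ZT (C j) := fun j hj => (h3 V E F M hM _ _ _ (hθ j hj)).1
  have s3 : ∀ j < n, CMap.dot Ds (C j) = 0 := by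
    intro j hj
    rw [dot_congr' (D' := fun e => ω e + (h (M.l e) + h (M.r e)))
      (fun e he => s1 e (hsub (hC j hj e he).1) (hsub (hC j hj e he).2))]
    rw [dot_add (E := E), hωC j hj, hp1 _ _ (zc j hj), add_zero]
  -- (4)
  obtain ⟨θs, xs, hcs, hxs⟩ := h2 V E F M hM A Ds s2 (fun e hl hr => by
    simp only [hDs]
    rw [if_neg]
    exact fun k => k.elim hl hr)
  have zxs : M.ZT xs := (h3 V E F M hM _ _ _ hcs).1
  -- (5)
  have s5 : ∀ y', M.ZT y' → CMap.dot Ds y' = 0 := by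
    intro y' hy'
    obtain ⟨θ', D', hc', -⟩ := h1 V E F M hM y' hy'
    have e1 : CMap.dot Ds y' = CMap.dot D' xs := h4 V E F M hM _ _ _ _ _ _ hcs hc'
    have zD' : M.ZG D' := (h3 V E F M hM _ _ _ hc').2
    set D2 : E → R := fun e => D' e + ∑ j ∈ Finset.range n, CMap.dot D' (C j) * Φ j e with hD2
    have zD2 : M.ZG D2 := by
      rw [zg_iff]
      intro v
      rw [hD2, dot_sum', (zg_iff D').1 zD' v, zero_add]
      refine Finset.sum_eq_zero fun j hj => ?_
      rw [(zg_iff (Φ j)).1 (h3 V E F M hM _ _ _ (hθ j (Finset.mem_range.1 hj))).2 v, mul_zero]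
    have dD2 : ∀ l < n, CMap.dot D2 (C l) = 0 := by
      intro l hl
      rw [hD2, dot_sum']
      rw [Finset.sum_congr rfl (g := fun j => if j = l then CMap.dot D' (C j) else 0)
        (fun j hj => by
          rw [hdel j (Finset.mem_range.1 hj) l hl]
          split_ifs <;> simp)]
      rw [Finset.sum_ite_eq', if_pos (Finset.mem_range.2 hl)]
      exact R2 _
    obtain ⟨g, hg⟩ := hgood D2 zD2 dD2
    have e2 : CMap.dot D2 xs = 0 := by
      rw [dot_congr' (D' := fun e => g (M.l e) + g (M.r e))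
        (fun e he => hg e (hxs e he).1 (hxs e he).2)]
      exact hp1 _ _ zxs
    rw [hD2, dot_sum'] at e2
    rw [Finset.sum_eq_zero (fun j hj => by
      rw [h4 V E F M hM _ _ _ _ _ _ (hθ j (Finset.mem_range.1 hj)) hcs,
        s3 j (Finset.mem_range.1 hj), mul_zero]), add_zero] at e2
    rw [e1, e2]
  -- (6)
  have s6 : CMap.dot Ds y = 1 := by
    rw [dot_congr' (D' := fun e => ω e + (h (M.l e) + h (M.r e)))
      (fun e he => s1 e (hyB e he).1 (hyB e he).2)]
    rw [dot_add (E := E), hωy, hp1 _ _ hy, add_zero]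
  rw [s5 y hy] at s6
  exact zero_ne_one s6

end Pool.Agent.H81.OLP
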